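import Pool.Agent.H293.EX.Stm

/-!
# Two elementary integrals
-/

set_option autoImplicit false

namespace Pool.Agent.H807.EX

open MeasureTheory Filter Topology Set Complex
open Pool.Agent.H293.EX

theorem lim0 {β : ℝ} (hβ : 0 < β) : Tendsto (fun w : ℝ => Real.exp (-(β * w))) atTop (𝓝 0) :=
  Real.tendsto_exp_neg_atTop_nhds_zero.comp (tendsto_id.const_mul_atTop hβ)

theorem lim1 {β : ℝ} (hβ : 0 < β) : Tendsto (fun w : ℝ => w * Real.exp (-(β * w))) atTop (𝓝 0) := by
  have h := (Real.tendsto_pow_mul_exp_neg_atTop_nhds_zero 1).comp (tendsto_id.const_mul_atTop hβ)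
  have h2 := h.const_mul (1 / β)
  rw [mul_zero] at h2
  refine h2.congr fun w => ?_
  simp only [Function.comp_apply, id, pow_one]
  field_simp

theorem norm_exp' (b : ℂ) (w : ℝ) : ‖cexp (-(b * w))‖ = Real.exp (-(b.re * w)) := by
  rw [Complex.norm_exp]
  simp

theorem int0 {b : ℂ} (hb : 0 < b.re) : IntegrableOn (fun w : ℝ => cexp (-(b * w))) (Ioi 0) := by
  have h := integrableOn_exp_mul_complex_Ioi (a := -b) (by simpa using hb) 0
  simpa only [neg_mul] using h

theorem int1 {b : ℂ} (hb : 0 < b.re) :
    IntegrableOn (fun w : ℝ => (w : ℂ) * cexp (-(b * w))) (Ioi 0) := by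
  have h := integrableOn_rpow_mul_exp_neg_mul_rpow (p := 1) (s := 1) (b := b.re) (by norm_num)
    (by norm_num) hb
  refine (integrable_norm_iff ?_).1 ?_
  · exact Continuous.aestronglyMeasurable (by fun_prop)
  · refine (integrableOn_congr_fun (fun w hw => ?_) measurableSet_Ioi).1 h
    have hw0 : (0 : ℝ) < w := hw
    rw [norm_mul, norm_exp', Complex.norm_real, Real.norm_of_nonneg hw0.le, Real.rpow_one]
    ring_nf

theorem kap_eq (a : ℝ) (s : ℂ) (w : ℝ) : (kap a w : ℂ) * cexp (-(s * w)) =
    a * cexp (-((a + s) * w)) - ((a : ℂ) ^ 2 - 1) / 2 * ((w : ℂ) * cexp (-((a + s) * w))) := by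
  unfold kap
  push_cast
  have h : cexp (-((a + s) * w)) = cexp (-(a * w)) * cexp (-(s * w)) := by
    rw [← Complex.exp_add]
    congr 1
    ring
  rw [h]
  ring

theorem t_KE : S_KE := by
  intro a s ha hs
  set b : ℂ := a + s with hb
  set c : ℂ := ((a : ℂ) ^ 2 - 1) / 2 with hc
  have hbre : 0 < b.re := by
    rw [hb, add_re, ofReal_re]
    linarith
  have hb0 : b ≠ 0 := fun h => by
    rw [h, zero_re] at hbre
    exact lt_irrefl _ hbre
  have hfun : (fun w : ℝ => (kap a w : ℂ) * cexp (-(s * w))) =
      fun w : ℝ => a * cexp (-(b * w)) - c * ((w : ℂ) * cexp (-(b * w))) :=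
    funext fun w => kap_eq a s w
  have hint : IntegrableOn (fun w : ℝ => (a : ℂ) * cexp (-(b * w)) -
      c * ((w : ℂ) * cexp (-(b * w)))) (Ioi 0) :=
    ((int0 hbre).const_mul _).sub ((int1 hbre).const_mul _)
  rw [hfun]
  refine ⟨hint, ?_⟩
  set F : ℝ → ℂ := fun w => -(a / b - c / b ^ 2) * cexp (-(b * w)) +
    c / b * ((w : ℂ) * cexp (-(b * w))) with hF
  have hder : ∀ w : ℝ, HasDerivAt F (a * cexp (-(b * w)) - c * ((w : ℂ) * cexp (-(b * w)))) w := by
    intro w
    have h1 : HasDerivAt (fun w : ℝ => (w : ℂ)) 1 w := Complex.ofRealCLM.hasDerivAt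
    have h2 : HasDerivAt (fun w : ℝ => cexp (-(b * w))) (cexp (-(b * w)) * (-(b * 1))) w :=
      ((h1.const_mul b).neg).cexp
    have h3 := (h2.const_mul (-(a / b - c / b ^ 2))).add ((h1.mul h2).const_mul (c / b))
    refine HasDerivAt.congr_deriv h3 ?_
    field_simp
    ring
  have hlim : Tendsto F atTop (𝓝 0) := by
    have h1 : Tendsto (fun w : ℝ => cexp (-(b * w))) atTop (𝓝 0) := by
      rw [tendsto_zero_iff_norm_tendsto_zero]
      simp only [norm_exp']
      exact lim0 hbre
    have h2 : Tendsto (fun w : ℝ => (w : ℂ) * cexp (-(b * w))) atTop (𝓝 0) := by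
      rw [tendsto_zero_iff_norm_tendsto_zero]
      have h3 := (lim1 hbre).abs
      rw [abs_zero] at h3
      refine h3.congr fun w => ?_
      rw [norm_mul, norm_exp', Complex.norm_real, abs_mul, Real.norm_eq_abs, Real.abs_exp]
    have h4 := (h1.const_mul (-(a / b - c / b ^ 2))).add (h2.const_mul (c / b))
    rw [mul_zero, mul_zero, add_zero] at h4
    exact h4
  rw [integral_Ioi_of_hasDerivAt_of_tendsto (hder 0).continuousAt.continuousWithinAt
    (fun w _ => hder w) hint hlim]
  simp only [hF]
  rw [ofReal_zero, mul_zero, neg_zero, Complex.exp_zero]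
  ring

/-- real version -/
theorem ke_real (a σ : ℝ) (ha : 0 < a) (hs : -a < σ) :
    IntegrableOn (fun w : ℝ => kap a w * Real.exp (-(σ * w))) (Ioi 0) ∧
    ∫ w in Ioi (0 : ℝ), kap a w * Real.exp (-(σ * w)) =
      a / (a + σ) - (a ^ 2 - 1) / 2 / (a + σ) ^ 2 := by
  obtain ⟨h1, h2⟩ := t_KE a (σ : ℂ) ha (by rwa [ofReal_re])
  have e : (fun w : ℝ => (kap a w : ℂ) * cexp (-((σ : ℂ) * w))) =
      fun w : ℝ => ((kap a w * Real.exp (-(σ * w)) : ℝ) : ℂ) := by
    funext w
    push_cast
    rfl
  rw [e] at h1 h2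
  refine ⟨?_, ?_⟩
  · refine h1.re.congr (Eventually.of_forall fun w => ?_)
    exact Complex.ofReal_re _
  · rw [integral_complex_ofReal] at h2
    exact_mod_cast h2

theorem t_KI : S_KI := by
  intro a v ha
  have hk : Continuous (kap a) := by
    unfold kap
    fun_prop
  have ik : IntegrableOn (kap a) (Ioi 0) := by
    refine (ke_real a 0 ha (by linarith)).1.congr (Eventually.of_forall fun w => ?_)
    simp
  obtain ⟨i1, e1⟩ := ke_real a 1 ha (by linarith)
  have hval : a / (a + 1) - (a ^ 2 - 1) / 2 / (a + 1) ^ 2 = 1 / 2 := by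
    field_simp
    ring
  rw [hval] at e1
  simp only [one_mul] at i1 e1
  have hint : IntegrableOn (fun w => kap a w * Real.exp (-|v - w|)) (Ioi 0) := by
    refine Integrable.mono ik (Continuous.aestronglyMeasurable (by fun_prop))
      (Eventually.of_forall fun w => ?_)
    rw [norm_mul, Real.norm_of_nonneg (Real.exp_pos _).le]
    refine mul_le_of_le_one_right (norm_nonneg _) ?_
    rw [Real.exp_le_one_iff]
    have := abs_nonneg (v - w)
    linarith
  refine ⟨hint, ?_⟩
  rcases le_or_gt v 0 with hv | hv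
  · have h1 : ∫ w in Ioi (0 : ℝ), kap a w * Real.exp (-|v - w|) =
        ∫ w in Ioi (0 : ℝ), Real.exp v * (kap a w * Real.exp (-w)) := by
      refine setIntegral_congr_fun measurableSet_Ioi fun w hw => ?_
      have hw0 : (0 : ℝ) < w := hw
      have h2 : -|v - w| = v + -w := by
        rw [abs_of_nonpos (by linarith)]
        ring
      show kap a w * Real.exp (-|v - w|) = _
      rw [h2, Real.exp_add]
      ring
    rw [h1, integral_const_mul, e1, max_eq_right hv, abs_of_nonpos hv, neg_neg]
    ring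
  · have i2 : IntegrableOn (fun w => kap a w * Real.exp (-|v - w|)) (Ioi v) :=
      hint.mono_set (Ioi_subset_Ioi hv.le)
    have i3 : IntegrableOn (fun w => kap a w * Real.exp (-w)) (Ioi v) :=
      i1.mono_set (Ioi_subset_Ioi hv.le)
    have s1 := intervalIntegral.integral_interval_add_Ioi hint i2
    have s2 := intervalIntegral.integral_interval_add_Ioi i1 i3
    have d1 : ∀ w : ℝ, HasDerivAt (fun w : ℝ => (-(1 / 2) + (1 + a) / 2 * w) *
        Real.exp ((1 - a) * w)) (kap a w * Real.exp w) w := by
      intro w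
      have h1 : HasDerivAt (fun w : ℝ => -(1 / 2) + (1 + a) / 2 * w) ((1 + a) / 2) w := by
        have := ((hasDerivAt_id w).const_mul ((1 + a) / 2)).const_add (-(1 / 2))
        simpa using this
      have h2 : HasDerivAt (fun w : ℝ => Real.exp ((1 - a) * w))
          (Real.exp ((1 - a) * w) * ((1 - a) * 1)) w := ((hasDerivAt_id w).const_mul (1 - a)).exp
      refine HasDerivAt.congr_deriv (h1.mul h2) ?_
      have h3 : Real.exp ((1 - a) * w) = Real.exp (-(a * w)) * Real.exp w := by
        rw [← Real.exp_add]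
        congr 1
        ring
      unfold kap
      rw [h3]
      ring
    have d2 : ∀ w : ℝ, HasDerivAt (fun w : ℝ => (-(1 / 2) + (a - 1) / 2 * w) *
        Real.exp (-(1 + a) * w)) (kap a w * Real.exp (-w)) w := by
      intro w
      have h1 : HasDerivAt (fun w : ℝ => -(1 / 2) + (a - 1) / 2 * w) ((a - 1) / 2) w := by
        have := ((hasDerivAt_id w).const_mul ((a - 1) / 2)).const_add (-(1 / 2))
        simpa using this
      have h2 : HasDerivAt (fun w : ℝ => Real.exp (-(1 + a) * w))
          (Real.exp (-(1 + a) * w) * (-(1 + a) * 1)) w :=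
        ((hasDerivAt_id w).const_mul (-(1 + a))).exp
      refine HasDerivAt.congr_deriv (h1.mul h2) ?_
      have h3 : Real.exp (-(1 + a) * w) = Real.exp (-(a * w)) * Real.exp (-w) := by
        rw [← Real.exp_add]
        congr 1
        ring
      unfold kap
      rw [h3]
      ring
    have f1 : ∫ w in (0 : ℝ)..v, kap a w * Real.exp w =
        (-(1 / 2) + (1 + a) / 2 * v) * Real.exp ((1 - a) * v) + 1 / 2 := by
      rw [intervalIntegral.integral_eq_sub_of_hasDerivAt (fun w _ => d1 w)
        (Continuous.intervalIntegrable (by fun_prop) _ _)]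
      simp
    have f2 : ∫ w in (0 : ℝ)..v, kap a w * Real.exp (-w) =
        (-(1 / 2) + (a - 1) / 2 * v) * Real.exp (-(1 + a) * v) + 1 / 2 := by
      rw [intervalIntegral.integral_eq_sub_of_hasDerivAt (fun w _ => d2 w)
        (Continuous.intervalIntegrable (by fun_prop) _ _)]
      simp
    have g1 : ∫ w in (0 : ℝ)..v, kap a w * Real.exp (-|v - w|) =
        Real.exp (-v) * ∫ w in (0 : ℝ)..v, kap a w * Real.exp w := by
      rw [← intervalIntegral.integral_const_mul]
      refine intervalIntegral.integral_congr fun w hw => ?_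
      rw [uIcc_of_le hv.le] at hw
      have h2 : -|v - w| = -v + w := by
        rw [abs_of_nonneg (by linarith [hw.2])]
        ring
      show kap a w * Real.exp (-|v - w|) = Real.exp (-v) * (kap a w * Real.exp w)
      rw [h2, Real.exp_add]
      ring
    have g2 : ∫ w in Ioi v, kap a w * Real.exp (-|v - w|) =
        Real.exp v * ∫ w in Ioi v, kap a w * Real.exp (-w) := by
      rw [← integral_const_mul]
      refine setIntegral_congr_fun measurableSet_Ioi fun w hw => ?_
      have hw0 : v < w := hw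
      have h2 : -|v - w| = v + -w := by
        rw [abs_of_nonpos (by linarith)]
        ring
      show kap a w * Real.exp (-|v - w|) = Real.exp v * (kap a w * Real.exp (-w))
      rw [h2, Real.exp_add]
      ring
    rw [f2, e1] at s2
    rw [← s1, g1, g2, f1, max_eq_left hv.le, abs_of_pos hv]
    have h4 : ∫ w in Ioi v, kap a w * Real.exp (-w) =
        -((-(1 / 2) + (a - 1) / 2 * v) * Real.exp (-(1 + a) * v)) := by linarith
    rw [h4]
    have h5 : Real.exp ((1 - a) * v) = Real.exp (-(a * v)) * Real.exp v := by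
      rw [← Real.exp_add]
      congr 1
      ring
    have h6 : Real.exp (-(1 + a) * v) = Real.exp (-(a * v)) * Real.exp (-v) := by
      rw [← Real.exp_add]
      congr 1
      ring
    have h7 : Real.exp v * Real.exp (-v) = 1 := by
      rw [← Real.exp_add, add_neg_cancel, Real.exp_zero]
    rw [h5, h6]
    linear_combination (-(v * Real.exp (-(a * v)))) * h7

end Pool.Agent.H807.EX
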